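import Pool.Agent.Helper61.Tri.Goals

/-!
# MP_5b3c48_co, packet LINK: linking two vertices through a list of centres
-/

set_option autoImplicit false

open Finset

namespace Pool.Agent.Helper8.Tri

open Pool.Agent.Helper61.Tri

open scoped Classical

variable {V : Type} [Fintype V]

theorem mem_cn {G : SimpleGraph V} {u v a : V} : a ∈ cn G u v ↔ G.Adj u a ∧ G.Adj v a := by
  simp [cn]

theorem pick (T A : Finset V) (h : A.card < T.card) : ∃ z ∈ T, z ∉ A :=
  Finset.exists_mem_notMem_of_card_lt_card h

/-- two edges with apexes -/
theorem two (E : EPTools) {G : SimpleGraph V} {p d z a b : V} (h1 : G.Adj p d)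
    (ha : a ∈ cn G p d) (h2 : G.Adj z d) (hb : b ∈ cn G z d) (hpz : p ≠ z) (haz : a ≠ z)
    (hbp : b ≠ p) (hab : b ≠ a) : EP G 2 p z {p, d, a, z, b} := by
  rw [mem_cn] at ha hb
  have e1 : EP G 1 p d {p, d, a} := E.single h1 ha.1 ha.2
  have e2 : EP G 1 d z {d, z, b} := E.single h2.symm hb.2 hb.1
  have hi : ({p, d, a} : Finset V) ∩ {d, z, b} ⊆ {d} := by
    intro x hx
    simp only [mem_inter, mem_insert, mem_singleton] at hx ⊢
    rcases hx.1 with h | h | h
    · rcases hx.2 with h' | h' | h'
      · exact h'
      · exact absurd (h.symm.trans h') hpz
      · exact absurd (h'.symm.trans h) hbp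
    · exact h
    · rcases hx.2 with h' | h' | h'
      · exact h'
      · exact absurd (h.symm.trans h') haz
      · exact absurd (h'.symm.trans h) hab
  have e3 := E.trans e1 e2 hi
  refine E.mono e3 le_rfl ?_
  intro x hx
  simp only [mem_union, mem_insert, mem_singleton] at hx ⊢
  tauto

theorem link (E : EPTools) : Link := by
  intro V _ G L
  induction L with
  | nil =>
    intro Z S p q K _ h
    exact absurd rfl h
  | cons d L ih =>
    intro Z S p q K hnd _ hpq hpL hqL hpS hqS hLS hZ hZK hh hl hK
    have hd := hh d rfl
    have hdS : d ∉ S := hLS d List.mem_cons_self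
    have hlen : (d :: L).length = L.length + 1 := rfl
    have hpd : p ≠ d := fun h => hpL (h ▸ List.mem_cons_self)
    have hqd : q ≠ d := fun h => hqL (h ▸ List.mem_cons_self)
    have hLc : (d :: L).toFinset.card ≤ L.length + 1 := List.toFinset_card_le _
    rw [hlen] at hK
    cases L with
    | nil =>
      have hl' := hl d rfl
      obtain ⟨a, ha, ha'⟩ := pick (cn G p d) (insert q S) (by
        have := card_insert_le q S
        have := hd.2
        omega)
      obtain ⟨b, hb, hb'⟩ := pick (cn G q d) (insert p (insert a S)) (by
        have := card_insert_le p (insert a S)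
        have := card_insert_le a S
        have := hl'.2
        omega)
      simp only [mem_insert, not_or] at ha' hb'
      refine ⟨_, two E hd.1 ha hl'.1 hb hpq ha'.1 hb'.1 hb'.2.1, ?_⟩
      rw [Finset.disjoint_right]
      intro x hx
      simp only [mem_insert, mem_singleton] at hx
      rcases hx with rfl | rfl | rfl | rfl | rfl
      · exact hpS
      · exact hdS
      · exact ha'.2
      · exact hqS
      · exact hb'.2.2
    | cons d' L =>
      obtain ⟨z, hz, hz'⟩ := pick Z (insert p (insert q (S ∪ (d :: d' :: L).toFinset))) (by
        have := card_insert_le p (insert q (S ∪ (d :: d' :: L).toFinset))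
        have := card_insert_le q (S ∪ (d :: d' :: L).toFinset)
        have := card_union_le S (d :: d' :: L).toFinset
        omega)
      simp only [mem_insert, not_or, mem_union, List.mem_toFinset] at hz'
      obtain ⟨hzp, hzq, hzS, hzL⟩ := hz'
      have hzd := hZ z hz d List.mem_cons_self
      obtain ⟨a, ha, ha'⟩ := pick (cn G p d) (insert z (insert q (S ∪ (d :: d' :: L).toFinset))) (by
        have := card_insert_le z (insert q (S ∪ (d :: d' :: L).toFinset))
        have := card_insert_le q (S ∪ (d :: d' :: L).toFinset)
        have := card_union_le S (d :: d' :: L).toFinset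
        have := hd.2
        omega)
      simp only [mem_insert, not_or, mem_union, List.mem_toFinset] at ha'
      obtain ⟨haz, haq, haS, haL⟩ := ha'
      obtain ⟨b, hb, hb'⟩ := pick (cn G z d)
        (insert a (insert p (insert q (S ∪ (d :: d' :: L).toFinset)))) (by
        have := card_insert_le a (insert p (insert q (S ∪ (d :: d' :: L).toFinset)))
        have := card_insert_le p (insert q (S ∪ (d :: d' :: L).toFinset))
        have := card_insert_le q (S ∪ (d :: d' :: L).toFinset)
        have := card_union_le S (d :: d' :: L).toFinset
        have := hzd.2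
        omega)
      simp only [mem_insert, not_or, mem_union, List.mem_toFinset] at hb'
      obtain ⟨hba, hbp, hbq, hbS, hbL⟩ := hb'
      have e1 : EP G 2 p z {p, d, a, z, b} := two E hd.1 ha hzd.1 hb (Ne.symm hzp) haz hbp hba
      have hbz : b ≠ z := by
        rw [mem_cn] at hb
        exact fun h => G.loopless.irrefl z (h ▸ hb.1)
      have hzd' : z ≠ d := fun h => hzL (h ▸ List.mem_cons_self)
      rw [List.nodup_cons] at hnd
      obtain ⟨S'', e2, hdis⟩ := ih Z (S ∪ {p, d, a, b}) z q K hnd.2 (List.cons_ne_nil _ _) hzq
        (fun h => hzL (List.mem_cons_of_mem _ h)) (fun h => hqL (List.mem_cons_of_mem _ h))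
        (by
          simp only [mem_union, mem_insert, mem_singleton, not_or]
          exact ⟨hzS, hzp, hzd', Ne.symm haz, Ne.symm hbz⟩)
        (by
          simp only [mem_union, mem_insert, mem_singleton, not_or]
          exact ⟨hqS, Ne.symm hpq, hqd, Ne.symm haq, Ne.symm hbq⟩)
        (by
          intro e he
          have he' : e ∈ d :: d' :: L := List.mem_cons_of_mem _ he
          simp only [mem_union, mem_insert, mem_singleton, not_or]
          exact ⟨hLS e he', fun h => hpL (h ▸ he'), fun h => hnd.1 (h ▸ he),
            fun h => haL (h ▸ he'), fun h => hbL (h ▸ he')⟩)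
        (fun x hx e he => hZ x hx e (List.mem_cons_of_mem _ he)) hZK
        (by
          intro e he
          have he1 : e = d' := by simpa using he.symm
          rw [he1]
          exact hZ z hz d' (List.mem_cons_of_mem _ List.mem_cons_self))
        (by
          intro e he
          exact hl e (by simpa using he))
        (by
          have h1 := card_union_le S {p, d, a, b}
          have h2 : ({p, d, a, b} : Finset V).card ≤ 4 := Finset.card_le_four
          have h3 : (d' :: L).length = L.length + 1 := rfl
          rw [h3] at hK ⊢
          omega)
      rw [Finset.disjoint_left] at hdis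
      have hi : ({p, d, a, z, b} : Finset V) ∩ S'' ⊆ {z} := by
        intro x hx
        rw [mem_inter] at hx
        have h1 := fun h => hdis (a := x) h hx.2
        simp only [mem_union, mem_insert, mem_singleton, not_or] at h1 hx ⊢
        tauto
      have e3 := E.trans e1 e2 hi
      have e4 : 2 + 2 * (d' :: L).length = 2 * (d :: d' :: L).length := by
        simp only [List.length_cons]
        ring
      rw [e4] at e3
      refine ⟨_, e3, ?_⟩
      rw [Finset.disjoint_left]
      intro x hx hx'
      rw [mem_union] at hx'
      rcases hx' with h | h
      · simp only [mem_insert, mem_singleton] at h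
        rcases h with rfl | rfl | rfl | rfl | rfl
        · exact hpS hx
        · exact hdS hx
        · exact haS hx
        · exact hzS hx
        · exact hbS hx
      · exact hdis (mem_union_left _ hx) h

end Pool.Agent.Helper8.Tri
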