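import Pool.Agent.Helper61.Tri.Goals

/-!
# MP_5b3c48_co, packet LINKX: linking through subsets of `X`
-/

set_option autoImplicit false

open Finset

namespace Pool.Agent.Helper8.Tri

open Pool.Agent.Helper61.Tri

open scoped Classical

theorem order_list {V : Type} (T : Finset V) (d d' : V) (hd : d ∈ T) (hd' : d' ∈ T)
    (h : d = d' → T = {d}) : ∃ L : List V, L.Nodup ∧ L ≠ [] ∧ (∀ e, e ∈ L ↔ e ∈ T) ∧
      L.head? = some d ∧ L.getLast? = some d' ∧ L.length = T.card := by
  by_cases hdd : d = d'
  · subst hdd
    have hT := h rfl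
    subst hT
    refine ⟨[d], List.nodup_singleton d, List.cons_ne_nil _ _, ?_, rfl, rfl, by simp⟩
    intro e
    simp
  · have h1 : d' ∈ T.erase d := mem_erase.2 ⟨Ne.symm hdd, hd'⟩
    refine ⟨d :: (((T.erase d).erase d').toList ++ [d']), ?_, List.cons_ne_nil _ _, ?_, rfl, ?_, ?_⟩
    · rw [List.nodup_cons]
      constructor
      · simp [hdd]
      · rw [List.nodup_append]
        refine ⟨Finset.nodup_toList _, List.nodup_singleton _, ?_⟩
        intro a ha b hb
        rw [List.mem_singleton] at hb
        rw [Finset.mem_toList, mem_erase] at ha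
        rw [hb]
        exact ha.1
    · intro e
      simp only [List.mem_cons, List.mem_append, Finset.mem_toList, mem_erase,
        List.not_mem_nil, or_false]
      constructor
      · rintro (rfl | h | rfl)
        · exact hd
        · exact h.2.2
        · exact hd'
      · intro he
        by_cases h1 : e = d
        · exact Or.inl h1
        · by_cases h2 : e = d'
          · exact Or.inr (Or.inr h2)
          · exact Or.inr (Or.inl ⟨h2, h1, he⟩)
    · rw [← List.cons_append, List.getLast?_append]
      simp
    · have h2 := card_erase_of_mem h1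
      have h3 := card_erase_of_mem hd
      have h4 : 0 < (T.erase d).card := card_pos.2 ⟨d', h1⟩
      simp only [List.length_cons, List.length_append, Finset.length_toList, List.length_nil]
      omega

theorem linkx (hL : Link) : LinkX := by
  intro s K _
  refine ⟨40 * (K + s), ?_⟩
  intro V _ hn G X hC
  have hn' : 40 * ((K : ℝ) + s) ≤ (Fintype.card V : ℝ) := by exact_mod_cast hn
  have hfew := hC.few
  have hXc : (X.card : ℝ) = s := by exact_mod_cast hC.card
  have hs0 : (0 : ℝ) ≤ s := Nat.cast_nonneg s
  have hK0 : (0 : ℝ) ≤ K := Nat.cast_nonneg K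
  have hcov : ∀ v : V, v ∈ Qs G X ∨ v ∈ X ∨ v ∈ Us G X := by
    intro v
    by_cases h1 : v ∈ X
    · exact Or.inr (Or.inl h1)
    · by_cases h2 : v ∈ Qs G X
      · exact Or.inl h2
      · exact Or.inr (Or.inr (by simp [Us, h1, h2]))
  have hQ : ∀ v ∈ Qs G X, (∀ x ∈ X, G.Adj v x) ∧
      (Fintype.card V : ℝ) / 10 ≤ ((nb G v).card : ℝ) := by
    intro v hv
    simp only [Qs, mem_filter, mem_univ, true_and] at hv
    exact hv.2
  have part1 : ∀ v ∈ Qs G X, ∀ x ∈ X, lnk G K v x := by
    intro v hv x hx
    refine ⟨(hQ v hv).1 x hx, ?_⟩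
    have hsub : nb G v ⊆ cn G v x ∪ (X ∪ Us G X) := by
      intro w hw
      simp only [nb, mem_filter, mem_univ, true_and] at hw
      rw [mem_union, mem_union]
      rcases hcov w with h | h | h
      · left
        simp only [cn, mem_filter, mem_univ, true_and]
        exact ⟨hw, ((hQ w h).1 x hx).symm⟩
      · exact Or.inr (Or.inl h)
      · exact Or.inr (Or.inr h)
    have h1 := card_le_card hsub
    have h2 := card_union_le (cn G v x) (X ∪ Us G X)
    have h3 := card_union_le X (Us G X)
    have h4 : ((nb G v).card : ℝ) ≤ (cn G v x).card + (X.card + (Us G X).card) := by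
      exact_mod_cast h1.trans (h2.trans (Nat.add_le_add_left h3 _))
    have h5 := (hQ v hv).2
    have h6 : (K : ℝ) ≤ ((cn G v x).card : ℝ) := by
      rw [hXc] at h4
      linarith
    exact_mod_cast h6
  have part2 : K ≤ (Qs G X).card := by
    have hsub : (univ : Finset V) ⊆ Qs G X ∪ (X ∪ Us G X) := by
      intro w _
      rw [mem_union, mem_union]
      exact hcov w
    have h1 := card_le_card hsub
    have h2 := card_union_le (Qs G X) (X ∪ Us G X)
    have h3 := card_union_le X (Us G X)
    have h4 : (Fintype.card V : ℝ) ≤ (Qs G X).card + (X.card + (Us G X).card) := by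
      rw [card_univ] at h1
      exact_mod_cast h1.trans (h2.trans (Nat.add_le_add_left h3 _))
    have h6 : (K : ℝ) ≤ ((Qs G X).card : ℝ) := by
      rw [hXc] at h4
      linarith
    exact_mod_cast h6
  refine ⟨part1, part2, ?_⟩
  intro T S d d' p q hTX hd hd' hdd hpq hpX hqX hpd hqd hK hpS hqS hdis
  obtain ⟨L, hnd, hne, hmem, hhead, hlast, hlen⟩ := order_list T d d' hd hd' hdd
  have hTs : T.card ≤ s := by
    rw [← hC.card]
    exact card_le_card hTX
  rw [← hlen]
  rw [Finset.disjoint_right] at hdis
  refine hL V G L (Qs G X) S p q K hnd hne hpq (fun h => hpX (hTX ((hmem p).1 h)))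
    (fun h => hqX (hTX ((hmem q).1 h))) hpS hqS (fun e he => hdis ((hmem e).1 he))
    (fun z hz e he => part1 z hz e (hTX ((hmem e).1 he))) part2 ?_ ?_ (by omega)
  · intro e he
    rw [hhead] at he
    rw [← Option.some.inj he]
    exact hpd
  · intro e he
    rw [hlast] at he
    rw [← Option.some.inj he]
    exact hqd

end Pool.Agent.Helper8.Tri
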