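import Pool.Agent.Helper61.Tri.Goals

/-!
# MP_5b3c48_co, packet U3: popular common neighbourhood
-/

set_option autoImplicit false

open Finset

namespace Pool.Agent.Helper8.Tri

open Pool.Agent.Helper61.Tri

open scoped Classical

section

variable {V : Type} [Fintype V]

theorem card_pairs (P : V → V → Prop) [DecidablePred fun p : V × V => P p.1 p.2]
    [∀ x, DecidablePred fun w => P x w] :
    (univ.filter fun p : V × V => P p.1 p.2).card =
      ∑ x : V, (univ.filter fun w : V => P x w).card := by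
  simp only [card_filter]
  rw [Fintype.sum_prod_type]

theorem card_pairs_ge (P : V → V → Prop) [DecidablePred fun p : V × V => P p.1 p.2]
    [∀ x, DecidablePred fun w => P x w] (A : Finset V) (c : ℝ)
    (h : ∀ x ∈ A, c ≤ ((univ.filter fun w : V => P x w).card : ℝ)) :
    c * (A.card : ℝ) ≤ ((univ.filter fun p : V × V => P p.1 p.2).card : ℝ) := by
  rw [card_pairs]
  push_cast
  calc c * (A.card : ℝ) = ∑ x ∈ A, c := by rw [sum_const, nsmul_eq_mul, mul_comm]
    _ ≤ ∑ x ∈ A, ((univ.filter fun w : V => P x w).card : ℝ) := sum_le_sum h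
    _ ≤ ∑ x : V, ((univ.filter fun w : V => P x w).card : ℝ) :=
        sum_le_sum_of_subset_of_nonneg (subset_univ _) (fun _ _ _ => Nat.cast_nonneg _)

theorem card_pairs_swap (P : V → V → Prop) [DecidablePred fun p : V × V => P p.1 p.2]
    [DecidablePred fun p : V × V => P p.2 p.1] :
    (univ.filter fun p : V × V => P p.2 p.1).card =
      (univ.filter fun p : V × V => P p.1 p.2).card := by
  refine card_bij' (fun p _ => (p.2, p.1)) (fun p _ => (p.2, p.1)) ?_ ?_ ?_ ?_
  · intro p hp
    simpa using hp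
  · intro p hp
    simpa using hp
  · intro p _
    rfl
  · intro p _
    rfl

theorem cn_comm (G : SimpleGraph V) (u v : V) : cn G u v = cn G v u := by
  ext w
  simp [cn, and_comm]

theorem Estar_symm {G : SimpleGraph V} {s : ℕ} {u v : V} (h : Estar G s u v) :
    Estar G s v u := by
  refine ⟨h.1.symm, ?_, ?_⟩
  · rw [cn_comm]
    exact h.2.1
  · intro y hy
    rw [cn_comm] at hy
    exact ⟨(h.2.2 y hy).2.symm, (h.2.2 y hy).1.symm⟩

end

theorem u3 (hU : U3A) : U3 := by
  intro s hs κ hκ β hβ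
  obtain ⟨β1, hβ1, n1, H1⟩ := hU s hs κ hκ (β / 2) (by positivity)
  obtain ⟨β2, hβ2, n2, H2⟩ := hU s hs κ hκ (β / 2 * β1) (by positivity)
  refine ⟨β1 * β2, by positivity, max n1 n2, ?_⟩
  intro V _ hn G hG R hR hcard
  obtain ⟨n, hndef⟩ : ∃ n : ℝ, (Fintype.card V : ℝ) = n := ⟨_, rfl⟩
  rw [hndef] at hcard ⊢
  have hn0 : 0 ≤ n := by rw [← hndef]; exact Nat.cast_nonneg _
  rcases hn0.eq_or_lt with hz | hpos
  · refine ⟨∅, ?_⟩
    rw [← hz]
    have : (0 : ℝ) ≤ ((univ.filter fun p : V × V => R p.1 p.2 ∧ cn G p.1 p.2 = ∅).card : ℝ) :=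
      Nat.cast_nonneg _
    nlinarith
  obtain ⟨good, hgd⟩ : ∃ good : V → Prop, ∀ x, good x ↔
    ∃ X : Finset V, β1 * n ≤ ((univ.filter fun w : V => R x w ∧ cn G x w = X).card : ℝ) :=
    ⟨_, fun _ => Iff.rfl⟩
  -- many pairs with good first element
  have hgood : β / 2 * n ^ 2 ≤
      ((univ.filter fun p : V × V => R p.1 p.2 ∧ good p.1).card : ℝ) := by
    by_contra hcon
    push Not at hcon
    have hsplit : (univ.filter fun p : V × V => R p.1 p.2).card ≤
        (univ.filter fun p : V × V => R p.1 p.2 ∧ good p.1).card +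
        (univ.filter fun p : V × V => R p.1 p.2 ∧ ¬ good p.1).card := by
      refine le_trans (card_le_card ?_) (card_union_le _ _)
      intro p hp
      simp only [mem_filter, mem_univ, true_and, mem_union] at hp ⊢
      by_cases hg : good p.1
      · exact Or.inl ⟨hp, hg⟩
      · exact Or.inr ⟨hp, hg⟩
    have hsplit' : ((univ.filter fun p : V × V => R p.1 p.2).card : ℝ) ≤
        ((univ.filter fun p : V × V => R p.1 p.2 ∧ good p.1).card : ℝ) +
        ((univ.filter fun p : V × V => R p.1 p.2 ∧ ¬ good p.1).card : ℝ) := by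
      exact_mod_cast hsplit
    have hbad : β / 2 * n ^ 2 ≤
        ((univ.filter fun p : V × V => R p.1 p.2 ∧ ¬ good p.1).card : ℝ) := by
      linarith
    obtain ⟨x, X, hx⟩ := H1 V (le_trans (le_max_left _ _) hn) G hG
      (fun u v => R u v ∧ ¬ good u) (fun u v h => hR u v h.1) (by rw [hndef]; convert hbad)
    rw [hndef] at hx
    have hpos' := lt_of_lt_of_le (show (0 : ℝ) < β1 * n by positivity) hx
    rw [Nat.cast_pos] at hpos'
    obtain ⟨w, hw⟩ := card_pos.1 hpos'
    simp only [mem_filter, mem_univ, true_and] at hw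
    refine hw.1.2 ((hgd x).2 ⟨X, le_trans hx ?_⟩)
    rw [Nat.cast_le]
    refine card_le_card ?_
    intro w hw
    simp only [mem_filter, mem_univ, true_and] at hw ⊢
    exact ⟨hw.1.1, hw.2⟩
  -- number of good vertices
  obtain ⟨A, hA⟩ : ∃ A : Finset V, ∀ x, x ∈ A ↔ good x :=
    ⟨univ.filter fun x => good x, fun x => by simp⟩
  have hAcard : β / 2 * n ≤ (A.card : ℝ) := by
    have h1 : (univ.filter fun p : V × V => R p.1 p.2 ∧ good p.1).card ≤
        A.card * Fintype.card V := by
      have h2 : (univ.filter fun p : V × V => R p.1 p.2 ∧ good p.1) ⊆ A ×ˢ (univ : Finset V) := by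
        intro p hp
        simp only [mem_filter, mem_univ, true_and] at hp
        simp only [mem_product, mem_univ, and_true, hA]
        exact hp.2
      have h3 := card_le_card h2
      rwa [card_product, card_univ] at h3
    have h2 : ((univ.filter fun p : V × V => R p.1 p.2 ∧ good p.1).card : ℝ) ≤
        (A.card : ℝ) * n := by
      rw [← hndef]
      exact_mod_cast h1
    have h3 : β / 2 * n * n ≤ (A.card : ℝ) * n := by nlinarith
    exact le_of_mul_le_mul_right h3 hpos
  have hch : ∀ x : V, ∃ X : Finset V, good x →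
      β1 * n ≤ ((univ.filter fun w : V => R x w ∧ cn G x w = X).card : ℝ) := by
    intro x
    by_cases hg : good x
    · obtain ⟨X, hX⟩ := (hgd x).1 hg
      exact ⟨X, fun _ => hX⟩
    · exact ⟨∅, fun h => absurd h hg⟩
  choose Xf hXf using hch
  obtain ⟨R2, hRd⟩ : ∃ R2 : V → V → Prop, ∀ w x, R2 w x ↔ good x ∧ R x w ∧ cn G x w = Xf x :=
    ⟨_, fun _ _ => Iff.rfl⟩
  have hR2 : β / 2 * β1 * n ^ 2 ≤ ((univ.filter fun p : V × V => R2 p.1 p.2).card : ℝ) := by
    have h1 := card_pairs_ge (fun x w => R2 w x) A (β1 * n) (by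
      intro x hx
      rw [hA] at hx
      refine le_trans (hXf x hx) ?_
      rw [Nat.cast_le]
      refine card_le_card ?_
      intro w hw
      simp only [mem_filter, mem_univ, true_and] at hw ⊢
      exact (hRd w x).2 ⟨hx, hw⟩)
    have h2 := card_pairs_swap R2
    rw [h2] at h1
    refine le_trans ?_ h1
    have h4 : β1 * n * (β / 2 * n) ≤ β1 * n * (A.card : ℝ) :=
      mul_le_mul_of_nonneg_left hAcard (by positivity)
    nlinarith
  obtain ⟨w, X, hwX⟩ := H2 V (le_trans (le_max_right _ _) hn) G hG R2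
    (fun u v h => Estar_symm (hR v u ((hRd u v).1 h).2.1)) (by rw [hndef]; convert hR2)
  rw [hndef] at hwX
  refine ⟨X, ?_⟩
  have h1 := card_pairs_ge (fun x w => R x w ∧ cn G x w = X)
    (univ.filter fun x : V => R2 w x ∧ cn G w x = X) (β1 * n) (by
      intro x hx
      simp only [mem_filter, mem_univ, true_and] at hx
      obtain ⟨hx1, hcw⟩ := hx
      obtain ⟨hg, hRx, hcx⟩ := (hRd w x).1 hx1
      have hX : Xf x = X := by
        rw [← hcx, cn_comm, hcw]
      have := hXf x hg
      rwa [hX] at this)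
  refine le_trans ?_ h1
  have h4 : β1 * n * (β2 * n) ≤
      β1 * n * ((univ.filter fun x : V => R2 w x ∧ cn G w x = X).card : ℝ) :=
    mul_le_mul_of_nonneg_left hwX (by positivity)
  nlinarith

end Pool.Agent.Helper8.Tri
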